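import Mathlib
import Pool.Agent.Helper40.CX.H51VK.Defs
import Pool.Agent.Helper40.CX.Good

namespace CX

/-!
# Block VK-ALG: the plane cubic and its Jacobian (pure algebra)
-/

set_option linter.unusedSectionVars false

namespace Pool.Agent.Helper51.VK

open VC VF Function
open Pool.Agent.Helper51.EW

universe u

section pure

variable {F : Type*} [Field F]

/-- The equation of the Jacobian. -/
def PJ (X Y α a β b : F) : Prop :=
  3 * Y ^ 2 + 4 * (β - b) ^ 2 = (X + α + a) * ((2 * X - (α + a)) ^ 2 + 3 * (α - a) ^ 2)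

/-- The denominator. -/
def pD (X α a : F) : F := (2 * X - (α + a)) ^ 2 + 3 * (α - a) ^ 2

/-- The first numerator. -/
def pA (X Y α a β b : F) : F :=
  Y * ((2 * X - (α + a)) + 3 * (α - a)) + 2 * (β - b) * ((α - a) - (2 * X - (α + a)))

/-- The second numerator. -/
def pB (X Y α a β b : F) : F :=
  Y * ((2 * X - (α + a)) - 3 * (α - a)) + 2 * (β - b) * ((α - a) + (2 * X - (α + a)))

lemma pure_pt {X Y α a β b : F} (hJ : PJ X Y α a β b) (hD : pD X α a ≠ 0) :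
    (pA X Y α a β b / pD X α a) ^ 3 - 3 * α * (pA X Y α a β b / pD X α a) + 2 * β =
      (pB X Y α a β b / pD X α a) ^ 3 - 3 * a * (pB X Y α a β b / pD X α a) + 2 * b := by
  have e : pA X Y α a β b ^ 3 - pB X Y α a β b ^ 3 -
      3 * (α * pA X Y α a β b - a * pB X Y α a β b) * pD X α a ^ 2 +
      2 * (β - b) * pD X α a ^ 3 = 0 := by
    unfold PJ at hJ
    unfold pA pB pD
    linear_combination (6 * (α - a) * Y - 4 * (β - b) * (2 * X - (α + a))) *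
      ((2 * X - (α + a)) ^ 2 + 3 * (α - a) ^ 2) * hJ
  field_simp
  linear_combination e

lemma pure_jac [Good F] {x₁ x₂ α a β b : F}
    (h : x₁ ^ 3 - 3 * α * x₁ + 2 * β = x₂ ^ 3 - 3 * a * x₂ + 2 * b) :
    PJ (x₁ ^ 2 + x₁ * x₂ + x₂ ^ 2 - α - a)
      ((x₁ + x₂) * (x₁ ^ 2 + x₁ * x₂ + x₂ ^ 2) - α * (x₁ + 2 * x₂) - a * (2 * x₁ + x₂))
      α a β b := by
  unfold PJ
  rw [← sub_eq_zero]
  refine (mul_eq_zero.mp (?_ : (2 : F) * _ = 0)).resolve_left Good.two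
  linear_combination (4 * (β - b) - ((x₁ - x₂) * (2 * (x₁ ^ 2 + x₁ * x₂ + x₂ ^ 2) -
    3 * (α + a)) - 3 * (x₁ + x₂) * (α - a))) * h

lemma pure_xa [Good F] {x₁ x₂ α a β b : F}
    (h : x₁ ^ 3 - 3 * α * x₁ + 2 * β = x₂ ^ 3 - 3 * a * x₂ + 2 * b) :
    pA (x₁ ^ 2 + x₁ * x₂ + x₂ ^ 2 - α - a)
      ((x₁ + x₂) * (x₁ ^ 2 + x₁ * x₂ + x₂ ^ 2) - α * (x₁ + 2 * x₂) - a * (2 * x₁ + x₂))
      α a β b = x₁ * pD (x₁ ^ 2 + x₁ * x₂ + x₂ ^ 2 - α - a) α a := by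
  unfold pA pD
  linear_combination ((α - a) - (2 * (x₁ ^ 2 + x₁ * x₂ + x₂ ^ 2 - α - a) - (α + a))) * h

lemma pure_xb [Good F] {x₁ x₂ α a β b : F}
    (h : x₁ ^ 3 - 3 * α * x₁ + 2 * β = x₂ ^ 3 - 3 * a * x₂ + 2 * b) :
    pB (x₁ ^ 2 + x₁ * x₂ + x₂ ^ 2 - α - a)
      ((x₁ + x₂) * (x₁ ^ 2 + x₁ * x₂ + x₂ ^ 2) - α * (x₁ + 2 * x₂) - a * (2 * x₁ + x₂))
      α a β b = x₂ * pD (x₁ ^ 2 + x₁ * x₂ + x₂ ^ 2 - α - a) α a := by
  unfold pB pD
  linear_combination ((α - a) + (2 * (x₁ ^ 2 + x₁ * x₂ + x₂ ^ 2 - α - a) - (α + a))) * h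

end pure

variable {k : Type u} [Field k] {W : Wei k} (D : Core W) {K : Type u} [Field K] [Algebra k K]

lemma den_eq (T S r ξ : K) : den D T S r ξ =
    pD (r ^ 2 * ξ) (Polynomial.aeval T D.al) (r ^ 4 * Polynomial.aeval S D.al) := by
  unfold den pD
  ring

lemma xa_eq (T S r ξ w : K) : xa D T S r ξ w =
    pA (r ^ 2 * ξ) (r ^ 3 * w) (Polynomial.aeval T D.al) (r ^ 4 * Polynomial.aeval S D.al)
      (Polynomial.aeval T D.be) (r ^ 6 * Polynomial.aeval S D.be) / den D T S r ξ := by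
  unfold xa pA
  congr 1
  ring

lemma xb_eq (T S r ξ w : K) : xb D T S r ξ w =
    pB (r ^ 2 * ξ) (r ^ 3 * w) (Polynomial.aeval T D.al) (r ^ 4 * Polynomial.aeval S D.al)
      (Polynomial.aeval T D.be) (r ^ 6 * Polynomial.aeval S D.be) / den D T S r ξ := by
  unfold xb pB
  congr 1
  ring

lemma jac_iff (T S r ξ w : K) : Jac D T S (r ^ 6) ξ w ↔
    PJ (r ^ 2 * ξ) (r ^ 3 * w) (Polynomial.aeval T D.al) (r ^ 4 * Polynomial.aeval S D.al)
      (Polynomial.aeval T D.be) (r ^ 6 * Polynomial.aeval S D.be) := by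
  unfold Jac PJ del
  constructor <;> intro h <;> linear_combination h

lemma cub_div {T r x : K} (hr : r ≠ 0) : r ^ 6 * cub D T (x / r ^ 2) =
    x ^ 3 - 3 * (r ^ 4 * Polynomial.aeval T D.al) * x + 2 * (r ^ 6 * Polynomial.aeval T D.be) := by
  unfold cub
  field_simp

/-- `4 p₀ p₁ p₂ = p₀ D`. -/
lemma nn_eq (T S r ξ : K) : 4 * nn D T S (r ^ 6) ξ =
    (r ^ 2 * ξ + Polynomial.aeval T D.al + r ^ 4 * Polynomial.aeval S D.al) * den D T S r ξ := by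
  unfold nn den
  ring

lemma den_ne [Good K] {T S r ξ : K} (h : nn D T S (r ^ 6) ξ ≠ 0) : den D T S r ξ ≠ 0 := by
  intro h0
  have h1 := nn_eq D T S r ξ
  rw [h0, mul_zero, mul_eq_zero] at h1
  rcases h1 with h1 | h1
  · exact absurd h1 four_ne_zero
  · exact h h1

/-- The point with coordinates `xa, xb` lies on the plane cubic. -/
theorem pt_on [Good K] {T S r ξ w : K} (hr : r ≠ 0) (hJ : Jac D T S (r ^ 6) ξ w)
    (hd : den D T S r ξ ≠ 0) :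
    cub D T (xa D T S r ξ w) = r ^ 6 * cub D S (xb D T S r ξ w / r ^ 2) := by
  rw [cub_div D hr, xa_eq, xb_eq]
  rw [den_eq] at hd ⊢
  rw [jac_iff] at hJ
  exact pure_pt hJ hd

/-- The Inose coordinate `ξ` of a point of the plane cubic. -/
noncomputable def xi (T S r x₁ x₂ : K) : K :=
  (x₁ ^ 2 + x₁ * x₂ + x₂ ^ 2 - Polynomial.aeval T D.al - r ^ 4 * Polynomial.aeval S D.al) / r ^ 2

/-- The Inose coordinate `w` of a point of the plane cubic. -/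
noncomputable def ww (T S r x₁ x₂ : K) : K :=
  ((x₁ + x₂) * (x₁ ^ 2 + x₁ * x₂ + x₂ ^ 2) - Polynomial.aeval T D.al * (x₁ + 2 * x₂) -
    r ^ 4 * Polynomial.aeval S D.al * (2 * x₁ + x₂)) / r ^ 3

lemma xi_mul {T S r x₁ x₂ : K} (hr : r ≠ 0) : r ^ 2 * xi D T S r x₁ x₂ =
    x₁ ^ 2 + x₁ * x₂ + x₂ ^ 2 - Polynomial.aeval T D.al - r ^ 4 * Polynomial.aeval S D.al := by
  unfold xi
  field_simp

lemma ww_mul {T S r x₁ x₂ : K} (hr : r ≠ 0) : r ^ 3 * ww D T S r x₁ x₂ =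
    (x₁ + x₂) * (x₁ ^ 2 + x₁ * x₂ + x₂ ^ 2) - Polynomial.aeval T D.al * (x₁ + 2 * x₂) -
    r ^ 4 * Polynomial.aeval S D.al * (2 * x₁ + x₂) := by
  unfold ww
  field_simp

theorem jac_of [Good K] {T S r x₁ x₂ : K} (hr : r ≠ 0)
    (h : cub D T x₁ = r ^ 6 * cub D S (x₂ / r ^ 2)) :
    Jac D T S (r ^ 6) (xi D T S r x₁ x₂) (ww D T S r x₁ x₂) := by
  rw [jac_iff, xi_mul D hr, ww_mul D hr]
  rw [cub_div D hr] at h
  exact pure_jac h

theorem xa_of [Good K] {T S r x₁ x₂ : K} (hr : r ≠ 0)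
    (h : cub D T x₁ = r ^ 6 * cub D S (x₂ / r ^ 2))
    (hd : den D T S r (xi D T S r x₁ x₂) ≠ 0) :
    xa D T S r (xi D T S r x₁ x₂) (ww D T S r x₁ x₂) = x₁ ∧
      xb D T S r (xi D T S r x₁ x₂) (ww D T S r x₁ x₂) = x₂ := by
  rw [cub_div D hr] at h
  rw [xa_eq, xb_eq, xi_mul D hr, ww_mul D hr]
  rw [den_eq, xi_mul D hr] at hd ⊢
  constructor
  · rw [div_eq_iff hd]
    exact pure_xa h
  · rw [div_eq_iff hd]
    exact pure_xb h

lemma den_swap {T S r ξ : K} (hr : r ≠ 0) : den D S T r⁻¹ ξ = den D T S r ξ / r ^ 8 := by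
  unfold den
  field_simp
  ring

/-- Exchanging the two points. -/
theorem xa_swap {T S r ξ w : K} (hr : r ≠ 0) :
    xa D S T r⁻¹ ξ w = xb D T S r ξ w / r ^ 2 ∧ xb D S T r⁻¹ ξ w = xa D T S r ξ w / r ^ 2 := by
  rw [xa_eq, xb_eq, xa_eq, xb_eq, den_swap D hr]
  constructor
  · have e : pA (r⁻¹ ^ 2 * ξ) (r⁻¹ ^ 3 * w) (Polynomial.aeval S D.al)
        (r⁻¹ ^ 4 * Polynomial.aeval T D.al) (Polynomial.aeval S D.be)
        (r⁻¹ ^ 6 * Polynomial.aeval T D.be) =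
        pB (r ^ 2 * ξ) (r ^ 3 * w) (Polynomial.aeval T D.al) (r ^ 4 * Polynomial.aeval S D.al)
          (Polynomial.aeval T D.be) (r ^ 6 * Polynomial.aeval S D.be) / r ^ 10 := by
      unfold pA pB
      field_simp
      ring
    rw [e]
    by_cases hd : den D T S r ξ = 0
    · rw [hd]; simp
    · field_simp
  · have e : pB (r⁻¹ ^ 2 * ξ) (r⁻¹ ^ 3 * w) (Polynomial.aeval S D.al)
        (r⁻¹ ^ 4 * Polynomial.aeval T D.al) (Polynomial.aeval S D.be)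
        (r⁻¹ ^ 6 * Polynomial.aeval T D.be) =
        pA (r ^ 2 * ξ) (r ^ 3 * w) (Polynomial.aeval T D.al) (r ^ 4 * Polynomial.aeval S D.al)
          (Polynomial.aeval T D.be) (r ^ 6 * Polynomial.aeval S D.be) / r ^ 10 := by
      unfold pA pB
      field_simp
      ring
    rw [e]
    by_cases hd : den D T S r ξ = 0
    · rw [hd]; simp
    · field_simp

theorem jac_swap {T S U ξ w : K} (hU : U ≠ 0) (h : Jac D T S U ξ w) : Jac D S T U⁻¹ ξ w := by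
  unfold Jac at *
  field_simp
  linear_combination h

theorem nn_swap {T S U ξ : K} (hU : U ≠ 0) : nn D S T U⁻¹ ξ = nn D T S U ξ / U ^ 2 := by
  unfold nn
  field_simp
  ring

end Pool.Agent.Helper51.VK

end CX
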