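import Mathlib
import Pool.Agent.Helper40.CX.H51VK.Defs
import Pool.Agent.Helper40.CX.Good

namespace CX

/-!
# Block VK-NOD: odd functions vanish on singular fibres

Let `4 A ^ 3 + 27 B ^ 2 = 0` at `u`. Then `A = -3 e ^ 2`, `B = 2 e ^ 3` for some `e` (`e = 0` if
`A = 0`, otherwise `e = -3 B / (2 A)`), and the fibre `y ^ 2 = (x - e) ^ 2 (x + 2 e)` is
parametrised by `x = m ^ 2 - 2 e`, `y = m (m ^ 2 - 3 e)`; `m ↦ -m` is the involution. An affine
point of the fibre is `(x, y)` with `y = 0` (then it is fixed by the involution and the function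
vanishes), or `y ≠ 0` and then `x ≠ e`, `m = y / (x - e)`, `m ≠ 0`. Path with parameter `m`
(over the field of rational functions, `exists_poly_roots` or `ff_ratFunc`): the value at the
parameter `m` equals the value at the parameter `-m`, i.e. `ψ p = ψ (neg p) = - ψ p`.
Template: `Pool.Agent.Helper94.EW.odd_singular` (the cuspidal case), in
`Pool/Agent/Helper94/EW/Even.lean`.
-/

set_option linter.unusedSectionVars false

namespace Pool.Agent.Helper51.VK

open VC VF Function
open Pool.Agent.Helper51.EW

universe u

variable {k : Type u} [Field k] [IsAlgClosed k] [Good k] {W : Wei k}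

/-- Block VK-NOD. -/
theorem odd_nodal {ψ : W.surface.Pt → ℂ} (h : Kills W.surface ψ)
    (ho : ∀ p, ψ (neg p) = -ψ p) (c : Coord W k)
    (hc : 4 * MvPolynomial.aeval c.u W.A ^ 3 + 27 * MvPolynomial.aeval c.u W.B ^ 2 = 0) :
    ψ (WPt.mk c) = 0 := by
  have hfix : ∀ p, neg p = p → ψ p = 0 := by
    intro p hp
    have h1 := ho p
    rw [hp] at h1
    have h2 : (2 : ℂ) * ψ p = 0 := by linear_combination h1
    exact (mul_eq_zero.mp h2).resolve_left two_ne_zero
  rcases aff_or_zero (WPt.mk c) with ⟨u, hu, h1⟩ | ⟨u, x, y, hu, h2, h1⟩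
  · rw [h1]
    exact hfix _ (neg_zeroPt u hu)
  · obtain ⟨l, d, hl, hd, e1, e2⟩ := mk_eq_iff.mp h1
    have hue : u = fun i => l * c.u i := by
      funext i
      exact e1 i
    have hdisc : 4 * MvPolynomial.aeval u W.A ^ 3 + 27 * MvPolynomial.aeval u W.B ^ 2 = 0 := by
      rw [hue, Helper51.EW.aeval_smul W.hA, Helper51.EW.aeval_smul W.hB]
      have e3 : l ^ (4 * W.N) = (l ^ W.N) ^ 4 := by rw [← pow_mul, Nat.mul_comm]
      have e4 : l ^ (6 * W.N) = (l ^ W.N) ^ 6 := by rw [← pow_mul, Nat.mul_comm]
      rw [e3, e4]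
      linear_combination (l ^ W.N) ^ 12 * hc
    obtain ⟨e, hA', hB'⟩ : ∃ e : k, MvPolynomial.aeval u W.A = -3 * e ^ 2 ∧
        MvPolynomial.aeval u W.B = 2 * e ^ 3 := by
      by_cases h0 : MvPolynomial.aeval u W.A = 0
      · refine ⟨0, ?_, ?_⟩
        · rw [h0]; ring
        · rw [h0] at hdisc
          have h3 : (27 : k) * MvPolynomial.aeval u W.B ^ 2 = 0 := by linear_combination hdisc
          have h4 := (mul_eq_zero.mp h3).resolve_left
            (by exact_mod_cast Good.ne' (K := k) (n := 27) 0 3 rfl)
          rw [(pow_eq_zero_iff two_ne_zero).mp h4]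
          ring
      · have h2k : (2 : k) ≠ 0 := Good.two
        refine ⟨-3 * MvPolynomial.aeval u W.B / (2 * MvPolynomial.aeval u W.A), ?_, ?_⟩
        · field_simp
          linear_combination hdisc
        · field_simp
          linear_combination MvPolynomial.aeval u W.B * hdisc
    have hxy : y ^ 2 = (x - e) ^ 2 * (x + 2 * e) := by
      rw [h2, hA', hB']; ring
    rw [h1]
    by_cases hy : y = 0
    · apply hfix
      rw [neg_aff]
      congr 1
      rw [hy, neg_zero]
    · have hx : x - e ≠ 0 := by
        intro h0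
        rw [h0] at hxy
        have : y ^ 2 = 0 := by rw [hxy]; ring
        exact hy ((pow_eq_zero_iff two_ne_zero).mp this)
      set s0 := y / (x - e) with hs0
      have hs2 : s0 ^ 2 - 2 * e = x := by
        rw [hs0, div_pow, hxy]
        field_simp
        ring
      have hs3 : s0 * (s0 ^ 2 - 3 * e) = y := by
        have h5 : s0 ^ 2 - 3 * e = x - e := by linear_combination hs2
        rw [h5, hs0]
        field_simp
      have hs00 : s0 ≠ 0 := by
        intro h0
        apply hy
        rw [← hs3, h0]; ring
      obtain ⟨K, _, _, τ, _, hK, hτ, _⟩ := exists_poly_roots (k := k) two_ne_zero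
        (fun _ : Fin 0 => (Polynomial.X : Polynomial k))
      have hAK : MvPolynomial.aeval (fun i => algebraMap k K (u i)) W.A =
          -3 * (algebraMap k K e) ^ 2 := by
        have := MvPolynomial.aeval_algebraMap_apply K u W.A
        rw [hA'] at this
        refine this.trans ?_
        rw [map_mul, map_neg, map_ofNat, map_pow]
      have hBK : MvPolynomial.aeval (fun i => algebraMap k K (u i)) W.B =
          2 * (algebraMap k K e) ^ 3 := by
        have := MvPolynomial.aeval_algebraMap_apply K u W.B
        rw [hB'] at this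
        refine this.trans ?_
        rw [map_mul, map_ofNat, map_pow]
      have heq : (τ * (τ ^ 2 - 3 * algebraMap k K e)) ^ 2 = (τ ^ 2 - 2 * algebraMap k K e) ^ 3 +
          MvPolynomial.aeval (fun i => algebraMap k K (u i)) W.A * (τ ^ 2 - 2 * algebraMap k K e) +
          MvPolynomial.aeval (fun i => algebraMap k K (u i)) W.B := by
        rw [hAK, hBK]; ring
      have key : ∀ (t : k) (v : Place k K), IsRes v τ t →
          W.surface.eval hK (apt W (fun i => algebraMap k K (u i)) (τ ^ 2 - 2 * algebraMap k K e)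
            (τ * (τ ^ 2 - 3 * algebraMap k K e))) v =
            apt W u (t ^ 2 - 2 * e) (t * (t ^ 2 - 3 * e)) := by
        intro t v hv
        have c2 : IsRes v (2 * algebraMap k K e) (2 * e) := by
          have := isRes_const (v := v) (2 * e)
          rwa [map_mul, map_ofNat] at this
        have c3 : IsRes v (3 * algebraMap k K e) (3 * e) := by
          have := isRes_const (v := v) (3 * e)
          rwa [map_mul, map_ofNat] at this
        exact eval_apt hK v heq hu (fun i => isRes_const _) ((hv.pow 2).sub c2)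
          (hv.mul ((hv.pow 2).sub c3))
      have h0 : ψ (apt W u (0 ^ 2 - 2 * e) (0 * (0 ^ 2 - 3 * e))) = 0 := by
        apply hfix
        have h3 : (0 * (0 ^ 2 - 3 * e) : k) ^ 2 = (0 ^ 2 - 2 * e) ^ 3 +
            MvPolynomial.aeval u W.A * (0 ^ 2 - 2 * e) + MvPolynomial.aeval u W.B := by
          rw [hA', hB']; ring
        rw [neg_apt hu h3]
        congr 1
        ring
      have h5 := path h hK _ hτ (a := 0) (b := s0) hs00.symm (A := 0)
        (B := ψ (apt W u (s0 ^ 2 - 2 * e) (s0 * (s0 ^ 2 - 3 * e))))
        (fun v hv => by rw [key 0 v hv, h0]) (fun v hv => by rw [key s0 v hv])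
      rw [hs3, hs2, apt_eq hu h2] at h5
      exact h5.symm

end Pool.Agent.Helper51.VK

end CX
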