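import Mathlib
import Pool.Agent.Helper40.CX.H51VK.Nod
import Pool.Agent.Helper40.CX.Good

namespace CX

/-!
# Block VK-VALS: null points, values of points at places

`Null ψ p` means that `ψ (p, q) = ψ (q, p) = 0` for all `q`.
-/

set_option linter.unusedSectionVars false

namespace Pool.Agent.Helper51.VK

open VC VF Function
open Pool.Agent.Helper51.EW

universe u

variable {k : Type u} [Field k] [IsAlgClosed k] [Good k] {W : Wei k} (D : Core W)
  {ψ : (W.surface.prod W.surface).Pt → ℂ}

lemma Alt.kills_fst (h : Alt W ψ) (q : W.surface.Pt) : Kills W.surface (fun p => ψ (p, q)) := by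
  refine h.kills.comp (r := fun p => (p, q)) ?_
  intro K _ _ hK c
  obtain ⟨d, hd⟩ := exists_const (W := W) K hK q
  exact ⟨(c, d), fun v => Prod.ext rfl (hd v)⟩

/-- Points on singular fibres are null (from `odd_nodal`, fixing the second point: use
`exists_const` for `Induced`). -/
theorem Alt.null_sing (h : Alt W ψ) (c : Coord W k)
    (hc : 4 * MvPolynomial.aeval c.u W.A ^ 3 + 27 * MvPolynomial.aeval c.u W.B ^ 2 = 0) :
    Null ψ (WPt.mk c) :=
  h.null_of fun q => odd_nodal (h.kills_fst q) (fun p => h.odd p q) c hc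

/-- Points on the fibre over `t` with `δ (t) = 0` are null. -/
theorem null_del (h : Alt W ψ) {t : k} (ht : del D t = 0) (x y : k) : Null ψ (ptt D t x y) := by
  by_cases hc : bp D t ≠ 0 ∧ y ^ 2 = x ^ 3 + MvPolynomial.aeval (bp D t) W.A * x +
      MvPolynomial.aeval (bp D t) W.B
  · have e : ptt D t x y = WPt.mk (affC (bp D t) x y hc.1 hc.2) := apt_eq hc.1 hc.2
    rw [e]
    apply h.null_sing
    change 4 * MvPolynomial.aeval (bp D t) W.A ^ 3 + 27 * MvPolynomial.aeval (bp D t) W.B ^ 2 = 0
    have e1 : MvPolynomial.aeval (bp D t) W.A = -3 * Polynomial.aeval t D.al := D.hA k t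
    have e2 : MvPolynomial.aeval (bp D t) W.B = 2 * Polynomial.aeval t D.be := D.hB k t
    rw [e1, e2]
    unfold del at ht
    linear_combination 108 * ht
  · have e : ptt D t x y = zeroPt (fun _ => 1) (fun h => one_ne_zero (congrFun h 0)) :=
      dif_neg hc
    rw [e]
    exact h.null_neg (neg_zeroPt _ _)

/-- Points of order two are null. -/
theorem null_two (h : Alt W ψ) (t x : k) : Null ψ (ptt D t x 0) := by
  by_cases hc : bp D t ≠ 0 ∧ (0 : k) ^ 2 = x ^ 3 + MvPolynomial.aeval (bp D t) W.A * x +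
      MvPolynomial.aeval (bp D t) W.B
  · apply h.null_neg
    unfold ptt
    rw [neg_apt hc.1 hc.2, neg_zero]
  · have e : ptt D t x 0 = zeroPt (fun _ => 1) (fun h => one_ne_zero (congrFun h 0)) :=
      dif_neg hc
    rw [e]
    exact h.null_neg (neg_zeroPt _ _)

/-- Classification of the points (template: `Pool.Agent.Helper51.EW.good_or`). -/
theorem null_or (h : Alt W ψ) (p : W.surface.Pt) : Null ψ p ∨ ∃ t x y : k,
    del D t ≠ 0 ∧ y ≠ 0 ∧ y ^ 2 = cub D t x ∧ p = ptt D t x y := by
  rcases aff_or_zero p with ⟨u, hu, rfl⟩ | ⟨u, x, y, hu, he, rfl⟩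
  · exact Or.inl (h.null_neg (neg_zeroPt u hu))
  have hdet := D.det
  set dt := D.e0 0 * D.e1 1 - D.e0 1 * D.e1 0 with hdt
  set s : k := (u 0 * D.e1 1 - u 1 * D.e1 0) / dt with hs
  set t : k := (u 1 * D.e0 0 - u 0 * D.e0 1) / dt with ht
  have hst : ∀ i, u i = s * D.e0 i + t * D.e1 i := by
    intro i
    fin_cases i
    · change u 0 = s * D.e0 0 + t * D.e1 0
      rw [hs, ht]
      field_simp
      rw [hdt]
      ring
    · change u 1 = s * D.e0 1 + t * D.e1 1
      rw [hs, ht]
      field_simp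
      rw [hdt]
      ring
  by_cases hs0 : s = 0
  · left
    have hu' : u = fun i => t * D.e1 i := by
      funext i
      rw [hst i, hs0, zero_mul, zero_add]
    refine h.null_sing (affC u x y hu he) ?_
    change 4 * MvPolynomial.aeval u W.A ^ 3 + 27 * MvPolynomial.aeval u W.B ^ 2 = 0
    rw [hu', aeval_smul W.hA, aeval_smul W.hB]
    linear_combination t ^ (12 * W.N) * D.sing
  set T : k := t / s with hT
  have hsT : s * T = t := by rw [hT]; field_simp
  have hu' : bp D T = fun i => s⁻¹ * u i := by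
    funext i
    change D.e0 i + T * D.e1 i = _
    rw [hst i, ← hsT]
    field_simp
  have hs' := inv_ne_zero hs0
  set x' : k := s⁻¹ ^ (2 * W.N) * x with hx'
  set y' : k := s⁻¹ ^ (3 * W.N) * y with hy'
  have heq : y' ^ 2 = x' ^ 3 + MvPolynomial.aeval (bp D T) W.A * x' +
      MvPolynomial.aeval (bp D T) W.B := by
    rw [hu', aeval_smul W.hA, aeval_smul W.hB, hx', hy']
    linear_combination s⁻¹ ^ (6 * W.N) * he
  have hp : aff u x y hu he = ptt D T x' y' := by
    unfold ptt
    rw [apt_eq (bp_ne D T) heq]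
    refine mk_eq_iff.mpr ⟨s⁻¹, 1, hs', one_ne_zero, fun i => congrFun hu' i, fun i => ?_⟩
    fin_cases i
    · change x' = s⁻¹ ^ (2 * W.N) * 1 * x
      rw [mul_one]
    · change y' = s⁻¹ ^ (3 * W.N) * 1 * y
      rw [mul_one]
    · change (1 : k) = s⁻¹ ^ 0 * 1 * 1
      simp
  rw [hp]
  by_cases hd : del D T = 0
  · exact Or.inl (null_del D h hd x' y')
  by_cases hy : y' = 0
  · left
    rw [hy]
    exact null_two D h T x'
  · right
    refine ⟨T, x', y', hd, hy, ?_, rfl⟩
    have e1 : MvPolynomial.aeval (bp D T) W.A = -3 * Polynomial.aeval T D.al := D.hA k T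
    have e2 : MvPolynomial.aeval (bp D T) W.B = 2 * Polynomial.aeval T D.be := D.hB k T
    rw [heq, e1, e2]
    unfold cub
    ring

variable {K : Type u} [Field K] [Algebra k K]

lemma isRes_aeval' {v : Place k K} {T : K} {t : k} (hT : IsRes v T t) (p : Polynomial k) :
    IsRes v (Polynomial.aeval T p) (Polynomial.aeval t p) := by
  rw [Polynomial.coe_aeval_eq_eval]
  exact hT.poly

lemma isRes_three {v : Place k K} : IsRes v (3 : K) (3 : k) := by
  have := isRes_const (v := v) (3 : k)
  rwa [map_ofNat] at this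

lemma isRes_two {v : Place k K} : IsRes v (2 : K) (2 : k) := by
  have := isRes_const (v := v) (2 : k)
  rwa [map_ofNat] at this

lemma isRes_cub {v : Place k K} {T x : K} {t c : k} (hT : IsRes v T t) (hx : IsRes v x c) :
    IsRes v (cub D T x) (cub D t c) :=
  ((hx.pow 3).sub ((isRes_three.mul (isRes_aeval' hT _)).mul hx)).add
    (isRes_two.mul (isRes_aeval' hT _))

lemma isRes_del {v : Place k K} {T : K} {t : k} (hT : IsRes v T t) :
    IsRes v (del D T) (del D t) :=
  ((isRes_aeval' hT _).pow 2).sub ((isRes_aeval' hT _).pow 3)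

lemma isRes_bp {v : Place k K} {T : K} {t : k} (hT : IsRes v T t) (i : Fin 2) :
    IsRes v (bp D T i) (bp D t i) :=
  (isRes_const (D.e0 i)).add (hT.mul (isRes_const (D.e1 i)))

/-- Regular values. -/
theorem eval_ptt (hK : IsFunctionField k K) (v : Place k K) {T x y : K} (he : y ^ 2 = cub D T x)
    {t c d : k} (hT : IsRes v T t) (hx : IsRes v x c) (hy : IsRes v y d) :
    W.surface.eval hK (ptt D T x y) v = ptt D t c d :=
  eval_apt hK v (cub_eqn D he) (bp_ne D t) (fun i => isRes_bp D hT i) hx hy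

lemma inv_nonunits {v : Place k K} {x : K} (hx : x ∉ v.ring) : x⁻¹ ∈ v.ring.nonunits := by
  rw [ValuationSubring.mem_nonunits_iff_or, inv_inv]
  exact Or.inr hx

lemma ne_zero_of_notMem {v : Place k K} {x : K} (hx : x ∉ v.ring) : x ≠ 0 := by
  rintro rfl
  exact hx v.ring.zero_mem

/-- The value is null if `x` has a pole and `T` is regular: it is a point of the zero section. -/
theorem null_of_pole (h : Alt W ψ) (hK : IsFunctionField k K) (v : Place k K) {T x y : K}
    (he : y ^ 2 = cub D T x) {t : k} (hT : IsRes v T t) (hx : x ∉ v.ring) :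
    Null ψ (W.surface.eval hK (ptt D T x y) v) := by
  have hx0 : x ≠ 0 := ne_zero_of_notMem hx
  have hi : IsRes v x⁻¹ 0 := isRes_zero_iff.mpr (inv_nonunits hx)
  have h1 : IsRes v (y ^ 2 / x ^ 3) 1 := by
    have e : y ^ 2 / x ^ 3 = 1 - 3 * Polynomial.aeval T D.al * x⁻¹ ^ 2 +
        2 * Polynomial.aeval T D.be * x⁻¹ ^ 3 := by
      rw [he]
      unfold cub
      field_simp
    rw [e]
    have := (isRes_one.sub ((isRes_three.mul (isRes_aeval' hT D.al)).mul (hi.pow 2))).add
      ((isRes_two.mul (isRes_aeval' hT D.be)).mul (hi.pow 3))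
    simpa using this
  have hy0 : y ≠ 0 := by
    rintro rfl
    have h2 := h1.ne_zero one_ne_zero
    simp at h2
  have h2 : IsRes v (x ^ 3 / y ^ 2) 1 := by
    have := h1.inv hK one_ne_zero
    rwa [inv_div, inv_one] at this
  have hxy : IsRes v (x / y) 0 := by
    obtain ⟨e, he1, he2⟩ := exists_res_of_pow hK two_ne_zero (x := x / y) (v := v) (c := 0) (by
      have := h2.mul hi
      rw [mul_zero] at this
      convert this using 1
      field_simp)
    rw [pow_eq_zero_iff two_ne_zero] at he2
    rwa [he2] at he1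
  have hy1 : IsRes v (1 / y) 0 := by
    obtain ⟨e, he1, he2⟩ := exists_res_of_pow hK two_ne_zero (x := 1 / y) (v := v) (c := 0) (by
      have := h2.mul (hi.pow 3)
      rw [zero_pow (by norm_num), mul_zero] at this
      convert this using 1
      field_simp)
    rw [pow_eq_zero_iff two_ne_zero] at he2
    rwa [he2] at he1
  have hval : W.surface.eval hK (ptt D T x y) v = zeroPt (bp D t) (bp_ne D t) := by
    have e1 : ptt D T x y = WPt.mk (affC (bp D T) x y (bp_ne D T) (cub_eqn D he)) :=
      apt_eq (bp_ne D T) (cub_eqn D he)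
    rw [e1, ← same_scale _ 1 y⁻¹ one_ne_zero (inv_ne_zero hy0)]
    refine eval_eq hK v _ (zeroC (bp D t) (bp_ne D t)) (fun i => ?_) (fun i => ?_)
    · change IsRes v (1 * bp D T i) (bp D t i)
      rw [one_mul]
      exact isRes_bp D hT i
    · fin_cases i
      · change IsRes v (1 ^ (2 * W.N) * y⁻¹ * x) 0
        have e2 : (1 : K) ^ (2 * W.N) * y⁻¹ * x = x / y := by
          rw [one_pow]; field_simp
        rw [e2]
        exact hxy
      · change IsRes v (1 ^ (3 * W.N) * y⁻¹ * y) 1
        have e2 : (1 : K) ^ (3 * W.N) * y⁻¹ * y = 1 := by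
          rw [one_pow]; field_simp
        rw [e2]
        exact isRes_one
      · change IsRes v (1 ^ 0 * y⁻¹ * 1) 0
        have e2 : (1 : K) ^ 0 * y⁻¹ * 1 = 1 / y := by
          rw [one_pow]; field_simp
        rw [e2]
        exact hy1
  rw [hval]
  exact h.null_neg (neg_zeroPt _ _)

/-- The value is null if `T` has a pole: it lies over `e1` (use `eval_base` for the coordinates
scaled by `T⁻¹`, and `null_sing`). -/
theorem null_of_pole_base (h : Alt W ψ) (hK : IsFunctionField k K) (v : Place k K) {T x y : K}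
    (he : y ^ 2 = cub D T x) (hT : T ∉ v.ring) :
    Null ψ (W.surface.eval hK (ptt D T x y) v) := by
  have hT0 : T ≠ 0 := ne_zero_of_notMem hT
  have hi : IsRes v T⁻¹ 0 := isRes_zero_iff.mpr (inv_nonunits hT)
  have he1 : D.e1 ≠ 0 := by
    intro h0
    apply D.det
    rw [h0]
    simp
  obtain ⟨b, hb1, hb2⟩ := eval_base hK v
    (scale (affC (bp D T) x y (bp_ne D T) (cub_eqn D he)) T⁻¹ 1 (inv_ne_zero hT0) one_ne_zero)
    he1 (by
      intro i
      change IsRes v (T⁻¹ * (algebraMap k K (D.e0 i) + T * algebraMap k K (D.e1 i))) (D.e1 i)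
      have e : T⁻¹ * (algebraMap k K (D.e0 i) + T * algebraMap k K (D.e1 i)) =
          T⁻¹ * algebraMap k K (D.e0 i) + algebraMap k K (D.e1 i) := by
        field_simp
      rw [e]
      have := (hi.mul (isRes_const (D.e0 i))).add (isRes_const (D.e1 i))
      rwa [zero_mul, zero_add] at this)
  rw [same_scale] at hb2
  have e1 : ptt D T x y = WPt.mk (affC (bp D T) x y (bp_ne D T) (cub_eqn D he)) :=
    apt_eq (bp_ne D T) (cub_eqn D he)
  rw [e1, hb2]
  apply h.null_sing
  rw [hb1]
  exact D.sing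

end Pool.Agent.Helper51.VK

end CX
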