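import Mathlib
import Pool.Agent.Helper40.CX.H51VK.Val
import Pool.Agent.Helper40.CX.Good

namespace CX

/-!
# Block VK-J: the symmetry `U ↦ δ (t) / (δ (s) U)`

For fixed `t, s, ξ` and `U' = δ (t) / (δ (s) U)`,
`hh (t, s, U, ξ, w) + hh (t, s, U', ξ, w) = 0`. Path with parameter `τ` (playing the role of `w`)
from `w` to `-w` (if `w = 0` both terms vanish by `hh_neg`). `K` contains `τ`, `E` with
`E ^ 2 = B ^ 2 - 4 δ δ'`, `B = ξ ^ 3 - 3 α α' ξ + 2 β β' - (3 / 4) τ ^ 2`, the two roots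
`U₁ = (B + E) / (2 δ')`, `U₂ = (B - E) / (2 δ')` of `δ' U ^ 2 - B U + δ = 0`, sixth roots
`R₁, R₂` of them, and square roots `y₁, y₂` of `cub D t (xa ..)`. Over `τ = ± w` the values of
`(U₁, U₂)` are `(U, U')` or `(U', U)`, and the sum is `hh (U, ± w) + hh (U', ± w)`, which is odd
in `w`.
-/

set_option linter.unusedSectionVars false

namespace Pool.Agent.Helper51.VK

open VC VF Function
open Pool.Agent.Helper51.EW

universe u

variable {k : Type u} [Field k] [IsAlgClosed k] [Good k] {W : Wei k} (D : Core W)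
  {ψ : (W.surface.prod W.surface).Pt → ℂ}

private lemma vkj_mem {K : Type u} [Field K] [Algebra k K] {v : Place k K} {a c : k} {B z : K}
    (ha : a ≠ 0) (hB : B ∈ v.ring)
    (h : algebraMap k K a * z ^ 2 - B * z + algebraMap k K c = 0) : z ∈ v.ring := by
  by_contra hz
  have h0 : z ≠ 0 := by
    rintro rfl
    exact hz v.ring.zero_mem
  have h1 : z⁻¹ ∈ v.ring := (v.ring.mem_or_inv_mem z).resolve_left hz
  apply hz
  have h3 : algebraMap k K a ≠ 0 := (_root_.map_ne_zero _).2 ha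
  have h2 : z = algebraMap k K a⁻¹ * (B - algebraMap k K c * z⁻¹) := by
    rw [map_inv₀]
    field_simp
    linear_combination h
  rw [h2]
  exact v.ring.mul_mem _ _ (v.algebraMap_mem _)
    (v.ring.sub_mem hB (v.ring.mul_mem _ _ (v.algebraMap_mem _) h1))

private lemma vkj_xa {K L : Type u} [Field K] [Algebra k K] [Field L] [Algebra k L] [Algebra K L]
    [IsScalarTower k K L] (T S r ξ w : K) :
    xa D (algebraMap K L T) (algebraMap K L S) (algebraMap K L r) (algebraMap K L ξ)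
      (algebraMap K L w) = algebraMap K L (xa D T S r ξ w) := by
  unfold xa den
  simp only [map_div₀, map_add, map_mul, map_sub, map_pow, map_ofNat,
    Polynomial.aeval_algebraMap_apply]

private lemma vkj_cub {K L : Type u} [Field K] [Algebra k K] [Field L] [Algebra k L] [Algebra K L]
    [IsScalarTower k K L] (T x : K) :
    cub D (algebraMap K L T) (algebraMap K L x) = algebraMap K L (cub D T x) := by
  unfold cub
  simp only [map_add, map_mul, map_sub, map_pow, map_ofNat, Polynomial.aeval_algebraMap_apply]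

private lemma vkj_del {K : Type u} [Field K] [Algebra k K] (t : k) :
    del D (algebraMap k K t) = algebraMap k K (del D t) := by
  unfold del
  simp only [map_sub, map_pow, Polynomial.aeval_algebraMap_apply]

/-- the constant part of the linear coefficient -/
private noncomputable def vkj_bc (t s ξ : k) : k :=
  ξ ^ 3 - 3 * (Polynomial.aeval t D.al * Polynomial.aeval s D.al) * ξ +
    2 * (Polynomial.aeval t D.be * Polynomial.aeval s D.be)

private lemma vkj_jac {K : Type u} [Field K] [Algebra k K] {t s ξ : k} {U τ : K}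
    (h : algebraMap k K (del D s) * U ^ 2 -
      (algebraMap k K (vkj_bc D t s ξ) - algebraMap k K (3 / 4) * τ ^ 2) * U +
      algebraMap k K (del D t) = 0) :
    Jac D (algebraMap k K t) (algebraMap k K s) U (algebraMap k K ξ) τ := by
  unfold Jac
  rw [vkj_del, vkj_del]
  have h4 : (4 : K) * algebraMap k K (3 / 4) = 3 := by
    have : (4 : K) = algebraMap k K 4 := (map_ofNat _ 4).symm
    rw [this, ← map_mul]
    have h4k : (4 : k) ≠ 0 := four_ne_zero
    have h5 : (4 : k) * (3 / 4) = 3 := by field_simp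
    rw [h5, map_ofNat]
  unfold vkj_bc at h
  simp only [map_add, map_mul, map_sub, map_pow, map_ofNat] at h
  simp only [Polynomial.aeval_algebraMap_apply]
  linear_combination 4 * h - τ ^ 2 * U * h4

private lemma vkj_quad {t s U ξ w : k} (hJ : Jac D t s U ξ w) :
    del D s * U ^ 2 - (vkj_bc D t s ξ - 3 / 4 * w ^ 2) * U + del D t = 0 := by
  unfold Jac at hJ
  unfold vkj_bc
  have h4k : (4 : k) ≠ 0 := four_ne_zero
  have h5 : (4 : k) * (3 / 4) = 3 := by field_simp
  refine (mul_eq_zero.mp (?_ : (4 : k) * _ = 0)).resolve_left h4k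
  linear_combination hJ + w ^ 2 * U * h5

private lemma vkj_inv {t s U U' ξ w : k} (hU : U ≠ 0) (hUU : del D s * U * U' = del D t)
    (hJ : Jac D t s U ξ w) : Jac D t s U' ξ w := by
  unfold Jac at hJ ⊢
  rw [← hUU] at hJ ⊢
  apply mul_left_cancel₀ hU
  linear_combination U' * hJ

private lemma vkj_field (t s ξ : k) (ht : del D t ≠ 0) (hs : del D s ≠ 0) :
    ∃ (K : Type u) (_ : Field K) (_ : Algebra k K) (τ R₁ R₂ y₁ y₂ : K),
      IsFunctionField k K ∧ Transcendental k τ ∧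
      algebraMap k K (del D s) * (R₁ ^ 6) ^ 2 -
        (algebraMap k K (vkj_bc D t s ξ) - algebraMap k K (3 / 4) * τ ^ 2) * R₁ ^ 6 +
        algebraMap k K (del D t) = 0 ∧
      algebraMap k K (del D s) * R₁ ^ 6 * R₂ ^ 6 = algebraMap k K (del D t) ∧
      y₁ ^ 2 = cub D (algebraMap k K t)
        (xa D (algebraMap k K t) (algebraMap k K s) R₁ (algebraMap k K ξ) τ) ∧
      y₂ ^ 2 = cub D (algebraMap k K t)
        (xa D (algebraMap k K t) (algebraMap k K s) R₂ (algebraMap k K ξ) τ) := by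
  have hs' : algebraMap k (RatFunc k) (del D s) ≠ 0 := (_root_.map_ne_zero _).2 hs
  obtain ⟨K₁, _, _, _, _, hK₁, hsp⟩ := exists_splits (ff_ratFunc (k := k))
    (Polynomial.C (algebraMap k (RatFunc k) (del D s)) * Polynomial.X ^ 2 +
      Polynomial.C (-(algebraMap k (RatFunc k) (vkj_bc D t s ξ) -
        algebraMap k (RatFunc k) (3 / 4) * RatFunc.X ^ 2)) *
        Polynomial.X + Polynomial.C (algebraMap k (RatFunc k) (del D t)))
  obtain ⟨z, hz⟩ := hsp.exists_eval_eq_zero (by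
    rw [Polynomial.degree_map, Polynomial.degree_quadratic hs']
    exact two_ne_zero)
  simp only [Polynomial.eval_map, Polynomial.eval₂_add, Polynomial.eval₂_mul,
    Polynomial.eval₂_C, Polynomial.eval₂_pow, Polynomial.eval₂_X] at hz
  simp only [map_sub, map_mul, map_pow,
    map_neg, ← IsScalarTower.algebraMap_apply k (RatFunc k) K₁] at hz
  set τ₁ : K₁ := algebraMap (RatFunc k) K₁ RatFunc.X with hτ₁
  have htr₁ : Transcendental k τ₁ :=
    (transcendental_algebraMap_iff (algebraMap (RatFunc k) K₁).injective).mpr transcendental_ratX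
  have hsK₁ : algebraMap k K₁ (del D s) ≠ 0 := (_root_.map_ne_zero _).2 hs
  have htK₁ : algebraMap k K₁ (del D t) ≠ 0 := (_root_.map_ne_zero _).2 ht
  have hz0 : z ≠ 0 := by
    rintro rfl
    apply htK₁
    linear_combination hz
  obtain ⟨K₂, _, _, _, _, R, hK₂, hR⟩ := exists_roots hK₁ (m := 6) (by norm_num)
    (![z, algebraMap k K₁ (del D t) / (algebraMap k K₁ (del D s) * z)] : Fin 2 → K₁)
  have hR0 : R 0 ^ 6 = algebraMap K₁ K₂ z := hR 0
  have hR1 : R 1 ^ 6 = algebraMap K₁ K₂ (algebraMap k K₁ (del D t) /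
    (algebraMap k K₁ (del D s) * z)) := hR 1
  set τ₂ : K₂ := algebraMap K₁ K₂ τ₁ with hτ₂
  have htr₂ : Transcendental k τ₂ :=
    (transcendental_algebraMap_iff (algebraMap K₁ K₂).injective).mpr htr₁
  obtain ⟨K₃, _, _, _, _, y, hK₃, hy⟩ := exists_roots hK₂ (m := 2) two_ne_zero
    (![cub D (algebraMap k K₂ t)
        (xa D (algebraMap k K₂ t) (algebraMap k K₂ s) (R 0) (algebraMap k K₂ ξ) τ₂),
      cub D (algebraMap k K₂ t)
        (xa D (algebraMap k K₂ t) (algebraMap k K₂ s) (R 1) (algebraMap k K₂ ξ) τ₂)] :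
      Fin 2 → K₂)
  have hy0 : y 0 ^ 2 = algebraMap K₂ K₃ (cub D (algebraMap k K₂ t)
        (xa D (algebraMap k K₂ t) (algebraMap k K₂ s) (R 0) (algebraMap k K₂ ξ) τ₂)) := hy 0
  have hy1 : y 1 ^ 2 = algebraMap K₂ K₃ (cub D (algebraMap k K₂ t)
        (xa D (algebraMap k K₂ t) (algebraMap k K₂ s) (R 1) (algebraMap k K₂ ξ) τ₂)) := hy 1
  have q2 : algebraMap k K₂ (del D s) * (R 0 ^ 6) ^ 2 -
        (algebraMap k K₂ (vkj_bc D t s ξ) - algebraMap k K₂ (3 / 4) * τ₂ ^ 2) * R 0 ^ 6 +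
        algebraMap k K₂ (del D t) = 0 := by
    have e := congrArg (algebraMap K₁ K₂) hz
    simp only [map_add, map_mul, map_sub, map_pow, map_neg, map_zero,
      ← IsScalarTower.algebraMap_apply k K₁ K₂] at e
    rw [hR0]
    linear_combination e
  have p2 : algebraMap k K₂ (del D s) * R 0 ^ 6 * R 1 ^ 6 = algebraMap k K₂ (del D t) := by
    rw [hR0, hR1, IsScalarTower.algebraMap_apply k K₁ K₂ (del D s),
      IsScalarTower.algebraMap_apply k K₁ K₂ (del D t), ← map_mul, ← map_mul]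
    congr 1
    field_simp
  refine ⟨K₃, inferInstance, inferInstance, algebraMap K₂ K₃ τ₂, algebraMap K₂ K₃ (R 0),
    algebraMap K₂ K₃ (R 1), y 0, y 1, hK₃,
    (transcendental_algebraMap_iff (algebraMap K₂ K₃).injective).mpr htr₂, ?_, ?_, ?_, ?_⟩
  · have e := congrArg (algebraMap K₂ K₃) q2
    simp only [map_add, map_mul, map_sub, map_pow, map_zero,
      ← IsScalarTower.algebraMap_apply k K₂ K₃] at e
    exact e
  · have e := congrArg (algebraMap K₂ K₃) p2
    simp only [map_mul, map_pow, ← IsScalarTower.algebraMap_apply k K₂ K₃] at e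
    exact e
  · rw [hy0, IsScalarTower.algebraMap_apply k K₂ K₃ t, IsScalarTower.algebraMap_apply k K₂ K₃ s,
      IsScalarTower.algebraMap_apply k K₂ K₃ ξ, vkj_xa, vkj_cub]
  · rw [hy1, IsScalarTower.algebraMap_apply k K₂ K₃ t, IsScalarTower.algebraMap_apply k K₂ K₃ s,
      IsScalarTower.algebraMap_apply k K₂ K₃ ξ, vkj_xa, vkj_cub]

private lemma vkj_val (h : Alt W ψ) {t s U ξ w ω : k} (ht : del D t ≠ 0) (hs : del D s ≠ 0)
    (hU : U ≠ 0) (hJ : Jac D t s U ξ w) (hn : nn D t s U ξ ≠ 0)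
    (hn' : nn D t s (del D t / (del D s * U)) ξ ≠ 0) (hω : ω ^ 2 = w ^ 2)
    {K : Type u} [Field K] [Algebra k K] (hK : IsFunctionField k K) (v : Place k K)
    {τ R₁ R₂ y₁ y₂ : K} (hv : IsRes v τ ω)
    (hq : algebraMap k K (del D s) * (R₁ ^ 6) ^ 2 -
        (algebraMap k K (vkj_bc D t s ξ) - algebraMap k K (3 / 4) * τ ^ 2) * R₁ ^ 6 +
        algebraMap k K (del D t) = 0)
    (hp : algebraMap k K (del D s) * R₁ ^ 6 * R₂ ^ 6 = algebraMap k K (del D t))
    (hy₁ : y₁ ^ 2 = cub D (algebraMap k K t)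
        (xa D (algebraMap k K t) (algebraMap k K s) R₁ (algebraMap k K ξ) τ))
    (hy₂ : y₂ ^ 2 = cub D (algebraMap k K t)
        (xa D (algebraMap k K t) (algebraMap k K s) R₂ (algebraMap k K ξ) τ)) :
    ψ (W.surface.eval hK (ptt D (algebraMap k K t)
          (xa D (algebraMap k K t) (algebraMap k K s) R₁ (algebraMap k K ξ) τ) y₁) v,
        W.surface.eval hK (ptt D (algebraMap k K s)
          (xb D (algebraMap k K t) (algebraMap k K s) R₁ (algebraMap k K ξ) τ / R₁ ^ 2)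
          (y₁ / R₁ ^ 3)) v) +
      ψ (W.surface.eval hK (ptt D (algebraMap k K t)
          (xa D (algebraMap k K t) (algebraMap k K s) R₂ (algebraMap k K ξ) τ) y₂) v,
        W.surface.eval hK (ptt D (algebraMap k K s)
          (xb D (algebraMap k K t) (algebraMap k K s) R₂ (algebraMap k K ξ) τ / R₂ ^ 2)
          (y₂ / R₂ ^ 3)) v) =
      hh D ψ t s U ξ ω + hh D ψ t s (del D t / (del D s * U)) ξ ω := by
  have htK : algebraMap k K (del D t) ≠ 0 := (_root_.map_ne_zero _).2 ht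
  have hsK : algebraMap k K (del D s) ≠ 0 := (_root_.map_ne_zero _).2 hs
  have hBres : IsRes v (algebraMap k K (vkj_bc D t s ξ) - algebraMap k K (3 / 4) * τ ^ 2)
      (vkj_bc D t s ξ - 3 / 4 * ω ^ 2) :=
    (isRes_const _).sub ((isRes_const _).mul (hv.pow 2))
  have hR₁0 : R₁ ≠ 0 := by
    rintro rfl
    apply htK
    linear_combination hq
  have hR₂0 : R₂ ≠ 0 := by
    rintro rfl
    apply htK
    linear_combination -hp
  have hU₁mem : R₁ ^ 6 ∈ v.ring := vkj_mem hs hBres.mem hq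
  obtain ⟨u₁, hu₁⟩ := exists_res hK hU₁mem
  have hu₁q : del D s * u₁ ^ 2 - (vkj_bc D t s ξ - 3 / 4 * ω ^ 2) * u₁ + del D t = 0 := by
    have e : IsRes v (algebraMap k K (del D s) * (R₁ ^ 6) ^ 2 -
        (algebraMap k K (vkj_bc D t s ξ) - algebraMap k K (3 / 4) * τ ^ 2) * R₁ ^ 6 +
        algebraMap k K (del D t))
        (del D s * u₁ ^ 2 - (vkj_bc D t s ξ - 3 / 4 * ω ^ 2) * u₁ + del D t) :=
      (((isRes_const _).mul (hu₁.pow 2)).sub (hBres.mul hu₁)).add (isRes_const _)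
    rw [hq] at e
    exact e.unique isRes_zero
  have hu₁0 : u₁ ≠ 0 := by
    rintro rfl
    apply ht
    linear_combination hu₁q
  have hU₂ : R₂ ^ 6 = algebraMap k K (del D t / del D s) * (R₁ ^ 6)⁻¹ := by
    rw [map_div₀]
    have := pow_ne_zero 6 hR₁0
    field_simp
    linear_combination hp
  have hu₂ : IsRes v (R₂ ^ 6) (del D t / del D s * u₁⁻¹) := by
    rw [hU₂]
    exact (isRes_const _).mul (hu₁.inv hK hu₁0)
  obtain ⟨r₁, hr₁, hr₁6⟩ := exists_res_of_pow hK (by norm_num) hu₁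
  obtain ⟨r₂, hr₂, hr₂6⟩ := exists_res_of_pow hK (by norm_num) hu₂
  have hr₁0 : r₁ ≠ 0 := by
    rintro rfl
    apply hu₁0
    rw [← hr₁6]
    norm_num
  have hr₂0 : r₂ ≠ 0 := by
    rintro rfl
    have : del D t / del D s * u₁⁻¹ ≠ 0 := mul_ne_zero (div_ne_zero ht hs) (inv_ne_zero hu₁0)
    apply this
    rw [← hr₂6]
    norm_num
  have hr₂6' : r₂ ^ 6 = del D t / (del D s * u₁) := by
    rw [hr₂6]
    field_simp
  have hquad := vkj_quad D hJ
  rw [← hω] at hquad
  -- the two cases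
  have hcase : u₁ = U ∨ u₁ = del D t / (del D s * U) := by
    by_cases hc : u₁ = U
    · exact Or.inl hc
    · right
      have h1 : (u₁ - U) * (del D s * (u₁ + U) - (vkj_bc D t s ξ - 3 / 4 * ω ^ 2)) = 0 := by
        linear_combination hu₁q - hquad
      have h2 := (mul_eq_zero.1 h1).resolve_left (sub_ne_zero.2 hc)
      rw [eq_div_iff (mul_ne_zero hs hU)]
      linear_combination U * h2 - hquad
  have hJ₁ := vkj_jac D hq
  have hq₂ : algebraMap k K (del D s) * (R₂ ^ 6) ^ 2 -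
        (algebraMap k K (vkj_bc D t s ξ) - algebraMap k K (3 / 4) * τ ^ 2) * R₂ ^ 6 +
        algebraMap k K (del D t) = 0 := by
    apply mul_left_cancel₀ (pow_ne_zero 6 hR₁0)
    rw [← hp] at hq ⊢
    linear_combination R₂ ^ 6 * hq
  have hJ₂ := vkj_jac D hq₂
  have hnn : nn D t s (r₁ ^ 6) ξ ≠ 0 ∧ nn D t s (r₂ ^ 6) ξ ≠ 0 ∧
      hh D ψ t s (r₁ ^ 6) ξ ω + hh D ψ t s (r₂ ^ 6) ξ ω =
        hh D ψ t s U ξ ω + hh D ψ t s (del D t / (del D s * U)) ξ ω := by
    rw [hr₁6, hr₂6']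
    rcases hcase with hc | hc
    · rw [hc]
      exact ⟨hn, hn', rfl⟩
    · have e : del D t / (del D s * u₁) = U := by
        rw [hc]
        field_simp
      rw [e, hc]
      exact ⟨hn', hn, add_comm _ _⟩
  rw [hh_val D h hK v hR₁0 hJ₁ hy₁ (isRes_const t) (isRes_const s) hr₁ hr₁0 (isRes_const ξ) hv hnn.1,
    hh_val D h hK v hR₂0 hJ₂ hy₂ (isRes_const t) (isRes_const s) hr₂ hr₂0 (isRes_const ξ) hv hnn.2.1]
  exact hnn.2.2

/-- Block VK-J. -/
theorem hh_inv (h : Alt W ψ) {t s U ξ w : k} (ht : del D t ≠ 0) (hs : del D s ≠ 0) (hU : U ≠ 0)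
    (hJ : Jac D t s U ξ w) (hn : nn D t s U ξ ≠ 0)
    (hn' : nn D t s (del D t / (del D s * U)) ξ ≠ 0) :
    hh D ψ t s U ξ w + hh D ψ t s (del D t / (del D s * U)) ξ w = 0 := by
  have hU' : del D t / (del D s * U) ≠ 0 := div_ne_zero ht (mul_ne_zero hs hU)
  have hJ' : Jac D t s (del D t / (del D s * U)) ξ w :=
    vkj_inv D hU (by field_simp) hJ
  have e1 := hh_neg D h hU hJ hn
  have e2 := hh_neg D h hU' hJ' hn'
  suffices hA : hh D ψ t s U ξ w + hh D ψ t s (del D t / (del D s * U)) ξ w =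
      hh D ψ t s U ξ (-w) + hh D ψ t s (del D t / (del D s * U)) ξ (-w) by
    rw [e1, e2] at hA
    have h2 : (2 : ℂ) * (hh D ψ t s U ξ w + hh D ψ t s (del D t / (del D s * U)) ξ w) = 0 := by
      linear_combination hA
    exact (mul_eq_zero.1 h2).resolve_left two_ne_zero
  by_cases hw : w = 0
  · rw [hw, neg_zero]
  obtain ⟨K, _, _, τ, R₁, R₂, y₁, y₂, hK, hτ, hq, hp, hy₁, hy₂⟩ := vkj_field D t s ξ ht hs
  have hne : w ≠ -w := fun hh => hw ((mul_eq_zero.1 (by linear_combination hh :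
    (2 : k) * w = 0)).resolve_left Good.two)
  refine path (Pool.Agent.Helper83.EW.kills_sum h.kills h.kills) hK
    (((ptt D (algebraMap k K t)
          (xa D (algebraMap k K t) (algebraMap k K s) R₁ (algebraMap k K ξ) τ) y₁),
        (ptt D (algebraMap k K s)
          (xb D (algebraMap k K t) (algebraMap k K s) R₁ (algebraMap k K ξ) τ / R₁ ^ 2)
          (y₁ / R₁ ^ 3))),
      ((ptt D (algebraMap k K t)
          (xa D (algebraMap k K t) (algebraMap k K s) R₂ (algebraMap k K ξ) τ) y₂),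
        (ptt D (algebraMap k K s)
          (xb D (algebraMap k K t) (algebraMap k K s) R₂ (algebraMap k K ξ) τ / R₂ ^ 2)
          (y₂ / R₂ ^ 3)))) hτ hne (fun v hv => ?_) (fun v hv => ?_)
  · exact vkj_val D h ht hs hU hJ hn hn' rfl hK v hv hq hp hy₁ hy₂
  · exact vkj_val D h ht hs hU hJ hn hn' (by ring) hK v hv hq hp hy₁ hy₂

/-- The symmetry. -/
theorem hh_sym (h : Alt W ψ) {t s U ξ w : k} (ht : del D t ≠ 0) (hs : del D s ≠ 0) (hU : U ≠ 0)
    (hJ : Jac D t s U ξ w) (hn : nn D t s U ξ ≠ 0)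
    (hn' : nn D t s (del D t / (del D s * U)) ξ ≠ 0) :
    hh D ψ s t (del D s * U / del D t) ξ w = hh D ψ t s U ξ w := by
  have hU' : del D t / (del D s * U) ≠ 0 := div_ne_zero ht (mul_ne_zero hs hU)
  have hJ' : Jac D t s (del D t / (del D s * U)) ξ w :=
    vkj_inv D hU (by field_simp) hJ
  have e1 := hh_swap D h hU' hJ' hn'
  have e2 := hh_inv D h ht hs hU hJ hn hn'
  rw [inv_div] at e1
  rw [e1]
  linear_combination -e2

end Pool.Agent.Helper51.VK

end CX
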